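import Pool.Agent.R655.LI.Tors

/-!
# Torsion in fundamental groups of subcomplexes of contractible 2-complexes

Definitions (`Pool.Agent.R655.LI.Defs`, `.Tors`):

* `Cx`: a 2-complex with one vertex, 1-cells `V`, 2-cells `R`, attaching words `r : R → FreeGroup V`
  (no finiteness assumption); `L.Pi` its fundamental group; `L.Contractible`: `π₁(L) = 1` and the
  integral boundary operator `C₂ → C₁` is injective; `L.IsFin`: finitely many cells; `Sub K L`: `K` is a
  subcomplex of `L`, `s.map` the induced homomorphism `π₁(K) → π₁(L)`; `L.del e` is `L` without the open
  2-cell `e`;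
* `OneCell L e`: `L` is contractible and `e` is attached along a 1-cell; `NN L e`: the commutator
  subgroup of `π₁(L - e)`; `Perf`: perfect; `NGen N h`: `N` is the normal closure of `h`;
  `Embeds K L' e s`: `π₁(K)` embeds in `NN L' e`;
* `ThmOne K L h`: the embedding property stated below;
* `NoTors P`: `π₁(K)` is torsion-free for all subcomplexes `K` of contractible `L` with `P L`;
* `NoTorsRed P`: for contractible `L` with `P L` and `e` attached along a 1-cell the commutator subgroup
  of `π₁(L - e)` is not both perfect and the normal closure of an element of prime order.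
-/

set_option autoImplicit false

namespace Pool.Agent.Results.MP_488119_gt.PrimeOrder

open Pool.Agent.R655.LI

/-- Let `K` be a subcomplex of a contractible 2-complex `L` and `h ≠ 1` an element of `π₁(K)`.  Then
`K` is a `π₁`-injective subcomplex of `L' - e`, `L'` contractible (finite if `L` is), `e` attached along a
1-cell, such that the commutator subgroup of `π₁(L' - e)` is perfect and the normal closure of `h`.
Hence the groups `π₁(K)`, `K` a subcomplex of a contractible 2-complex, are torsion-free if and only
if no such commutator subgroup is perfect and the normal closure of an element of prime order. -/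
theorem result :
    (∀ (K L : Cx) (_ : Sub K L), L.Contractible → ∀ h : K.Pi, h ≠ 1 → ThmOne K L h) ∧
    (NoTors (fun _ => True) ↔ NoTorsRed (fun _ => True)) ∧
    (NoTors Cx.IsFin ↔ NoTorsRed Cx.IsFin) :=
  ⟨fun K L i hL h h1 => thmOne K L i hL h h1, noTors_iff _ (fun _ _ _ h => h),
    noTors_iff _ (fun _ _ h => h)⟩

end Pool.Agent.Results.MP_488119_gt.PrimeOrder
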